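import Pool.Agent.H746Z.CREM.Main

set_option autoImplicit false

/-! At the algorithmic threshold of the CREM, linearly many queries do not suffice. -/

namespace Pool.Agent.Results.MP_f9dad2_pr.ASuperlinear

open MeasureTheory ProbabilityTheory Filter Topology Asymptotics
open scoped ENNReal

/-- `a` is Riemann integrable on `[0,1]`: the Riemann sums over tagged partitions
`0 = t 0 < t 1 < ... < t r = 1`, with tags `ξ j ∈ [t j, t (j+1)]`, converge to some number `I`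
as the mesh tends to `0`. -/
def RiemannIntegrable01 (a : ℝ → ℝ) : Prop :=
  ∃ I : ℝ, ∀ ε > 0, ∃ δ > 0, ∀ (r : ℕ) (t ξ : ℕ → ℝ), t 0 = 0 → t r = 1 →
    (∀ j < r, t j < t (j + 1) ∧ t (j + 1) - t j < δ ∧ t j ≤ ξ j ∧ ξ j ≤ t (j + 1)) →
    |∑ j ∈ Finset.range r, a (ξ j) * (t (j + 1) - t j) - I| < ε

/-- The vertices of the binary tree of depth `N`: binary strings of length at most `N`. -/
def Vertex (N : ℕ) : Type := {v : List Bool // v.length ≤ N}

/-- The depth `|v|` of a vertex. -/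
def depth {N : ℕ} (v : Vertex N) : ℕ := v.1.length

/-- The depth of the deepest common ancestor of `v` and `w`: the largest `k ≤ min |v| |w|`
such that the first `k` letters of `v` and `w` agree. -/
def meetDepth {N : ℕ} (v w : Vertex N) : ℕ :=
  Nat.findGreatest (fun k => v.1.take k = w.1.take k) (min v.1.length w.1.length)

/-- `A t` is the integral of `a` over `[0,t]`. -/
noncomputable def A (a : ℝ → ℝ) (t : ℝ) : ℝ := ∫ s in (0 : ℝ)..t, a s

/-- The algorithmic threshold `x_*`. -/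
noncomputable def xstar (a : ℝ → ℝ) : ℝ := √(2 * Real.log 2) * ∫ s in (0 : ℝ)..1, √(a s)

/-- `X` is the centred Gaussian process on the tree of depth `N` with covariance
`N A(|v ∧ w| / N)`, and `U 1, U 2, ...` (and the unused `U 0`) are i.i.d. uniform on `[0,1]` and
independent of `X`. -/
structure IsModel (a : ℝ → ℝ) (N : ℕ) {Ω : Type} [MeasurableSpace Ω] (P : Measure Ω)
    (X : Vertex N → Ω → ℝ) (U : ℕ → Ω → ℝ) : Prop where
  prob : IsProbabilityMeasure P
  measX : ∀ v, Measurable (X v)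
  gauss : IsGaussianProcess X P
  centred : ∀ v, ∫ ω, X v ω ∂P = 0
  cov : ∀ v w, ∫ ω, X v ω * X w ω ∂P = N * A a ((meetDepth v w : ℝ) / N)
  measU : ∀ i, Measurable (U i)
  indepU : iIndepFun U P
  unif : ∀ i, P.map (U i) = volume.restrict (Set.Icc (0 : ℝ) 1)
  indepXU : IndepFun (fun ω v => X v ω) (fun ω i => U i ω) P

/-- The sigma-algebra generated by `v 1, ..., v n`, `X (v 1), ..., X (v n)` and
`U 1, ..., U (n+1)`. -/
abbrev filt {N : ℕ} {Ω : Type} (X : Vertex N → Ω → ℝ) (U : ℕ → Ω → ℝ) (v : ℕ → Ω → Vertex N)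
    (n : ℕ) : MeasurableSpace Ω :=
  (⨆ i ∈ Set.Icc 1 n, MeasurableSpace.comap (v i) ⊤) ⊔
    (⨆ i ∈ Set.Icc 1 n, MeasurableSpace.comap (fun ω => X (v i ω) ω) Real.measurableSpace) ⊔
    (⨆ i ∈ Set.Icc 1 (n + 1), MeasurableSpace.comap (U i) Real.measurableSpace)

/-- A randomised search algorithm: for every `n ≥ 0` the query `v (n+1)` is measurable with
respect to `filt X U v n` (the value `v 0` plays no role). -/
def IsAlgorithm {N : ℕ} {Ω : Type} (X : Vertex N → Ω → ℝ) (U : ℕ → Ω → ℝ)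
    (v : ℕ → Ω → Vertex N) : Prop :=
  ∀ (n : ℕ) (E : Set (Vertex N)), @MeasurableSet Ω (filt X U v n) (v (n + 1) ⁻¹' E)

/-- The hitting time: the least `n ≥ 1` such that `v n` is a leaf with `X (v n) ≥ y`, and `∞`
if there is none. -/
noncomputable def tau {N : ℕ} {Ω : Type} (X : Vertex N → Ω → ℝ) (v : ℕ → Ω → Vertex N) (y : ℝ)
    (ω : Ω) : ℝ≥0∞ :=
  ⨅ n ∈ {n : ℕ | 1 ≤ n ∧ depth (v n ω) = N ∧ y ≤ X (v n ω) ω}, (n : ℝ≥0∞)

theorem result (a : ℝ → ℝ) (ha : ∀ s ∈ Set.Icc (0 : ℝ) 1, 0 ≤ a s) (hR : RiemannIntegrable01 a)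
    (h1 : A a 1 = 1) (g : ℕ → ℝ) (hg : g =o[atTop] fun N : ℕ => (N : ℝ))
    (Ω : ℕ → Type) [∀ N, MeasurableSpace (Ω N)] (P : ∀ N, Measure (Ω N))
    (X : ∀ N, Vertex N → Ω N → ℝ) (U : ∀ N, ℕ → Ω N → ℝ)
    (hM : ∀ N, IsModel a N (P N) (X N) (U N))
    (v : ∀ N, ℕ → Ω N → Vertex N) (hv : ∀ N, IsAlgorithm (X N) (U N) (v N))
    (C : ℝ) (hC : 0 < C) :
    Tendsto (fun N : ℕ => P N {ω | tau (X N) (v N) (xstar a * N - g N) ω ≤ ENNReal.ofReal (C * N)})
      atTop (𝓝 0) := by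
  have h := Pool.Agent.H746Z.CREM.main ha hR h1 hg P X (fun N => (hM N).gauss)
    (fun N => (hM N).measX) (fun N => (hM N).centred) (fun N => (hM N).cov) U
    (fun N => (hM N).measU) (fun N => (hM N).indepXU) v (fun N n E _ => hv N n E)
    (C := C + 1) (by linarith)
  refine tendsto_of_tendsto_of_tendsto_of_le_of_le' tendsto_const_nhds h
    (Eventually.of_forall fun _ => zero_le) ?_
  filter_upwards [eventually_ge_atTop 1] with N hN
  refine measure_mono fun ω hω => ?_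
  have hN' : (1 : ℝ) ≤ N := by exact_mod_cast hN
  have h2 : tau (X N) (v N) (xstar a * N - g N) ω < ENNReal.ofReal ((C + 1) * N) :=
    lt_of_le_of_lt hω ((ENNReal.ofReal_lt_ofReal_iff (by positivity)).2 (by linarith))
  obtain ⟨n, h3⟩ := iInf_lt_iff.1 h2
  obtain ⟨h4, h5⟩ := iInf_lt_iff.1 h3
  refine ⟨n, h4.1, ?_, h4.2.1, h4.2.2⟩
  rw [← ENNReal.ofReal_natCast] at h5
  exact ((ENNReal.ofReal_lt_ofReal_iff (by positivity)).1 h5).le

end Pool.Agent.Results.MP_f9dad2_pr.ASuperlinear
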